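import Pool.Agent.Y322.IV.Stm2

set_option autoImplicit false

open Set MeasureTheory Function Filter Topology
open scoped unitInterval ContDiff

namespace Pool.Agent.Y502.IV

open Pool.Agent.Y322.IV

variable {E : Type} [NormedAddCommGroup E] [InnerProductSpace ℝ E] [FiniteDimensional ℝ E]

/-- the gradients agree where the bump vanishes -/
theorem grad_eq {h h' g : E → ℝ} {ρ : ℝ} (dh : Differentiable ℝ h) (dg : Differentiable ℝ g)
    (g0 : ∀ x, 0 ≤ g x) (hh : ∀ x, h' x = h x + ρ * g x) {x : E} (hx : g x = 0) :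
    gradient h' x = gradient h x := by
  have hmin : IsLocalMin g x := Filter.Eventually.of_forall fun y => by rw [hx]; exact g0 y
  have hf : fderiv ℝ g x = 0 := hmin.fderiv_eq_zero
  have he : h' = fun y => h y + ρ * g y := funext hh
  have h1 : HasFDerivAt h' (fderiv ℝ h x + ρ • fderiv ℝ g x) x := by
    rw [he]
    exact (dh x).hasFDerivAt.add ((dg x).hasFDerivAt.const_mul ρ)
  have h2 : fderiv ℝ h' x = fderiv ℝ h x := by
    rw [h1.fderiv, hf, smul_zero, add_zero]
  unfold gradient
  rw [h2]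

/-- a function with zero value and positive slope is positive shortly afterwards -/
theorem pos_after {h : E → ℝ} (dh : Differentiable ℝ h) (x v : E) {s₀ s₁ : ℝ} (hs : s₀ < s₁)
    (h0 : h (x + s₀ • v) = 0) (hp : 0 < inner ℝ v (gradient h (x + s₀ • v))) :
    ∃ s, s₀ < s ∧ s < s₁ ∧ 0 < h (x + s • v) := by
  have hd : HasDerivAt (fun s : ℝ => h (x + s • v)) (inner ℝ v (gradient h (x + s₀ • v))) s₀ := by
    have h1 : HasDerivAt (fun s : ℝ => x + s • v) v s₀ := by
      have h2 : HasDerivAt (fun s : ℝ => s • v) ((1 : ℝ) • v) s₀ :=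
        (hasDerivAt_id s₀).smul_const v
      rw [one_smul] at h2
      exact h2.const_add x
    have h3 := ((dh (x + s₀ • v)).hasFDerivAt).comp_hasDerivAt s₀ h1
    have h4 : (fderiv ℝ h (x + s₀ • v)) v = inner ℝ v (gradient h (x + s₀ • v)) := by
      rw [real_inner_comm]
      unfold gradient
      rw [InnerProductSpace.toDual_symm_apply]
    rw [h4] at h3
    exact h3
  have h5 := (hasDerivAt_iff_tendsto_slope.mp hd).eventually (lt_mem_nhds hp)
  have h6 : ∀ᶠ s in 𝓝[>] s₀, 0 < slope (fun s : ℝ => h (x + s • v)) s₀ s :=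
    h5.filter_mono (nhdsWithin_mono _ fun s (hs : s₀ < s) => hs.ne')
  have h7 : ∀ᶠ s in 𝓝[>] s₀, s ∈ Ioo s₀ s₁ := Ioo_mem_nhdsGT hs
  obtain ⟨s, hs1, hs2⟩ := (h6.and h7).exists
  refine ⟨s, hs2.1, hs2.2, ?_⟩
  rw [slope_def_field, h0, sub_zero] at hs1
  have hs3 : 0 < s - s₀ := sub_pos.mpr hs2.1
  exact (div_pos_iff_of_pos_right hs3).mp hs1

/-- the same next hit -/
theorem key {h h' g : E → ℝ} {ρ : ℝ} (dh : Differentiable ℝ h) (dh' : Differentiable ℝ h')
    (dg : Differentiable ℝ g) (g0 : ∀ x, 0 ≤ g x) (hh : ∀ x, h' x = h x + ρ * g x)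
    (x v : E) (b t t' : ℝ) (hb : 0 ≤ b) (pos : 0 < b → ∀ s ∈ Icc (0 : ℝ) b, 0 < g (x + s • v))
    (ht : 0 < t) (ht' : 0 < t') (gp : g (x + t • v) = 0) (gp' : g (x + (b + t') • v) = 0)
    (hp : h (x + t • v) = 0) (hp' : h' (x + (b + t') • v) = 0)
    (out : 0 < inner ℝ v (gradient h (x + t • v)))
    (out' : 0 < inner ℝ v (gradient h' (x + (b + t') • v)))
    (neg : ∀ s ∈ Icc (0 : ℝ) t, h (x + s • v) ≤ 0)
    (neg' : ∀ s ∈ Icc (0 : ℝ) t', h' (x + (b + s) • v) ≤ 0) : t = b + t' := by
  have hbt : b < t := by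
    by_contra hc
    push Not at hc
    have := pos (by linarith) t ⟨ht.le, hc⟩
    rw [gp] at this
    exact lt_irrefl _ this
  rcases lt_trichotomy t (b + t') with hlt | heq | hgt
  · exfalso
    have h1 : h' (x + t • v) = 0 := by rw [hh, hp, gp]; ring
    have h2 : 0 < inner ℝ v (gradient h' (x + t • v)) := by
      rw [grad_eq dh dg g0 hh gp]; exact out
    obtain ⟨s, hs1, hs2, hs3⟩ := pos_after dh' x v hlt h1 h2
    have := neg' (s - b) ⟨by linarith, by linarith⟩
    rw [show b + (s - b) = s by ring] at this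
    linarith
  · exact heq
  · exfalso
    have h1 : h (x + (b + t') • v) = 0 := by
      have := hh (x + (b + t') • v)
      rw [hp', gp'] at this
      linarith
    have h2 : 0 < inner ℝ v (gradient h (x + (b + t') • v)) := by
      rw [← grad_eq dh dg g0 hh gp']; exact out'
    obtain ⟨s, hs1, hs2, hs3⟩ := pos_after dh x v hgt h1 h2
    have := neg s ⟨by linarith, by linarith⟩
    linarith

omit [FiniteDimensional ℝ E] in
theorem G_ne {u G : E} {c : ℝ} (hc : 0 < c) (h : inner ℝ u G ≤ -c) : G ≠ 0 := by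
  rintro rfl
  rw [inner_zero_right] at h
  linarith

/-- the incoming velocity points outwards -/
theorem inc {u u1 G : E} {c : ℝ} (hc : 0 < c) (h : inner ℝ u1 G ≤ -c)
    (hr : ‖G‖ ^ 2 • u1 = ‖G‖ ^ 2 • u - (2 * inner ℝ u G) • G) : c ≤ inner ℝ u G := by
  have hG : ‖G‖ ^ 2 ≠ 0 := pow_ne_zero _ (norm_ne_zero_iff.mpr (G_ne hc h))
  have h1 := congrArg (fun z => inner ℝ z G) hr
  simp only [inner_sub_left, inner_smul_left, real_inner_self_eq_norm_sq, conj_trivial] at h1
  have h2 : ‖G‖ ^ 2 * (inner ℝ u1 G + inner ℝ u G) = 0 := by linarith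
  have h3 := (mul_eq_zero.mp h2).resolve_left hG
  linarith

theorem refl_eq {u u1 u1' G : E} {c : ℝ} (hc : 0 < c) (h : inner ℝ u1 G ≤ -c)
    (hr : ‖G‖ ^ 2 • u1 = ‖G‖ ^ 2 • u - (2 * inner ℝ u G) • G)
    (hr' : ‖G‖ ^ 2 • u1' = ‖G‖ ^ 2 • u - (2 * inner ℝ u G) • G) : u1 = u1' := by
  have hG : ‖G‖ ^ 2 ≠ 0 := pow_ne_zero _ (norm_ne_zero_iff.mpr (G_ne hc h))
  have h1 : ‖G‖ ^ 2 • u1 = ‖G‖ ^ 2 • u1' := by rw [hr, hr']
  exact smul_right_injective E hG h1

theorem main_le {h h' g : E → ℝ} {ρ : ℝ} (dh : Differentiable ℝ h) (dh' : Differentiable ℝ h')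
    (dg : Differentiable ℝ g) (g0 : ∀ x, 0 ≤ g x) (gc : Convex ℝ {x | 0 < g x})
    (hh : ∀ x, h' x = h x + ρ * g x)
    (e w y : E) (n : ℕ) (c M M' a a' : ℝ) (p u p' u' : ℕ → E) (τ τ' : ℕ → ℝ)
    (hn : 1 ≤ n) (hc : 0 < c) (hew : e + w ≠ 0)
    (L : LoopAt h (gradient h) g e y w n c M a p u τ)
    (L' : LoopAt h' (gradient h') g e y w n c M' a' p' u' τ') (haa : a ≤ a') : ρ = 0 := by
  have hN : 0 < ‖e + w‖ := norm_pos_iff.mpr hew
  have hu0 : u 0 = u' 0 := by
    have h1 : ‖e + w‖ • u 0 = ‖e + w‖ • u' 0 := by rw [L.dir, L'.dir]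
    exact smul_right_injective E hN.ne' h1
  have hunit : ‖u 0‖ = 1 := L.unit 0 (Nat.zero_le _)
  set b : ℝ := (a' - a) * ‖e + w‖ with hbdef
  have hb : 0 ≤ b := mul_nonneg (sub_nonneg.mpr haa) hN.le
  have hp0 : p' 0 = p 0 + b • u 0 := by
    rw [L.start, L'.start, hbdef, mul_smul, L.dir, sub_smul]
    abel
  -- n is not 1
  have hn1 : 1 < n := by
    rcases hn.lt_or_eq with h1 | h1
    · exact h1
    · exfalso
      have h2 := L.move 0 (by omega)
      have h3 := L.ret
      rw [← h1] at h3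
      rw [zero_add, h3] at h2
      have h4 : τ 0 • u 0 = 0 := by
        have := h2.symm
        rwa [add_eq_left] at this
      have h5 : 0 < τ 0 := lt_of_lt_of_le hc (L.tlo 0 (by omega))
      rcases smul_eq_zero.mp h4 with h6 | h6
      · linarith
      · rw [h6, norm_zero] at hunit
        exact zero_ne_one hunit
  -- the common part
  have step : ∀ k, 1 ≤ k → k < n → p k = p' k ∧ u k = u' k := by
    intro k hk
    induction k, hk using Nat.le_induction with
    | base =>
      intro _
      have hm := L.move 0 (by omega)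
      have hm' := L'.move 0 (by omega)
      rw [zero_add] at hm hm'
      rw [hp0, ← hu0, add_assoc, ← add_smul] at hm'
      have hg1 := L.gzero 1 (by omega) hn1
      have hg1' := L'.gzero 1 (by omega) hn1
      have hinc := inc hc (L.out 1 hn1.le) (L.refl 0 (by omega))
      have hinc' := inc hc (L'.out 1 hn1.le) (L'.refl 0 (by omega))
      have hz := L.zero 1 hn1.le
      have hz' := L'.zero 1 hn1.le
      have hτ : τ 0 = b + τ' 0 := by
        refine key dh dh' dg g0 hh (p 0) (u 0) b (τ 0) (τ' 0) hb ?_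
          (lt_of_lt_of_le hc (L.tlo 0 (by omega))) (lt_of_lt_of_le hc (L'.tlo 0 (by omega)))
          ?_ ?_ ?_ ?_ ?_ ?_ (L.neg 0 (by omega)) ?_
        · intro hb0 s hs
          have h1 : p 0 ∈ {x | 0 < g x} := lt_of_lt_of_le hc L.gpos
          have h2 : p' 0 ∈ {x | 0 < g x} := lt_of_lt_of_le hc L'.gpos
          have h3 := gc h1 h2 (a := 1 - s / b) (b := s / b)
            (by rw [sub_nonneg]; exact (div_le_one hb0).mpr hs.2) (div_nonneg hs.1 hb) (by ring)
          have h4 : (1 - s / b) • p 0 + (s / b) • p' 0 = p 0 + s • u 0 := by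
            rw [hp0, smul_add, smul_smul, div_mul_cancel₀ s hb0.ne', ← add_assoc, ← add_smul]
            rw [show 1 - s / b + s / b = 1 by ring, one_smul]
          rw [h4] at h3
          exact h3
        · rw [← hm]; exact hg1
        · rw [← hm']; exact hg1'
        · rw [← hm]; exact hz
        · rw [← hm']; exact hz'
        · rw [← hm]; exact lt_of_lt_of_le hc hinc
        · rw [← hm', hu0]; exact lt_of_lt_of_le hc hinc'
        · intro s hs
          have h1 := L'.neg 0 (by omega) s hs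
          rw [hp0, ← hu0, add_assoc, ← add_smul] at h1
          exact h1
      have hpe : p 1 = p' 1 := by rw [hm, hm', hτ]
      refine ⟨hpe, ?_⟩
      have hG : gradient h' (p' 1) = gradient h (p 1) := by
        rw [← hpe]; exact grad_eq dh dg g0 hh hg1
      have hr := L.refl 0 (by omega)
      have hr' := L'.refl 0 (by omega)
      rw [zero_add] at hr hr'
      rw [hG, ← hu0] at hr'
      exact refl_eq hc (L.out 1 hn1.le) hr hr'
    | succ k hk ih =>
      intro hkn
      obtain ⟨ihp, ihu⟩ := ih (by omega)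
      have hm := L.move k (by omega)
      have hm' := L'.move k (by omega)
      rw [← ihp, ← ihu] at hm'
      have hg1 := L.gzero (k + 1) (by omega) hkn
      have hg1' := L'.gzero (k + 1) (by omega) hkn
      have hinc := inc hc (L.out (k + 1) hkn.le) (L.refl k (by omega))
      have hinc' := inc hc (L'.out (k + 1) hkn.le) (L'.refl k (by omega))
      have hz := L.zero (k + 1) hkn.le
      have hz' := L'.zero (k + 1) hkn.le
      have hτ : τ k = 0 + τ' k := by
        refine key dh dh' dg g0 hh (p k) (u k) 0 (τ k) (τ' k) le_rfl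
          (fun h0 => absurd h0 (lt_irrefl _))
          (lt_of_lt_of_le hc (L.tlo k (by omega))) (lt_of_lt_of_le hc (L'.tlo k (by omega)))
          ?_ ?_ ?_ ?_ ?_ ?_ (L.neg k (by omega)) ?_
        · rw [← hm]; exact hg1
        · rw [zero_add, ← hm']; exact hg1'
        · rw [← hm]; exact hz
        · rw [zero_add, ← hm']; exact hz'
        · rw [← hm]; exact lt_of_lt_of_le hc hinc
        · rw [zero_add, ← hm', ihu]; exact lt_of_lt_of_le hc hinc'
        · intro s hs
          have h1 := L'.neg k (by omega) s hs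
          rw [← ihp, ← ihu] at h1
          rw [zero_add]
          exact h1
      rw [zero_add] at hτ
      have hpe : p (k + 1) = p' (k + 1) := by rw [hm, hm', hτ]
      refine ⟨hpe, ?_⟩
      have hG : gradient h' (p' (k + 1)) = gradient h (p (k + 1)) := by
        rw [← hpe]; exact grad_eq dh dg g0 hh hg1
      have hr := L.refl k (by omega)
      have hr' := L'.refl k (by omega)
      rw [hG, ← ihu] at hr'
      exact refl_eq hc (L.out (k + 1) hkn.le) hr hr'
  -- the last step
  obtain ⟨hpl, hul⟩ := step (n - 1) (by omega) (by omega)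
  have hn' : n - 1 + 1 = n := by omega
  have hm := L.move (n - 1) (by omega)
  have hm' := L'.move (n - 1) (by omega)
  rw [hn', L.ret] at hm
  rw [hn', L'.ret, ← hpl, ← hul] at hm'
  have hdiff : b • u 0 = (τ' (n - 1) - τ (n - 1)) • u (n - 1) := by
    have h1 : p 0 + b • u 0 = p (n - 1) + τ' (n - 1) • u (n - 1) := by rw [← hp0]; exact hm'
    rw [hm] at h1
    rw [sub_smul]
    have h2 : τ (n - 1) • u (n - 1) + b • u 0 = τ' (n - 1) • u (n - 1) := by
      rw [add_assoc] at h1
      exact add_left_cancel h1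
    rw [← h2]; abel
  have hul1 : ‖u (n - 1)‖ = 1 := L.unit (n - 1) (by omega)
  have hb0 : b = 0 := by
    by_contra hbne
    have hbpos : 0 < b := lt_of_le_of_ne hb (Ne.symm hbne)
    have hnorm := congrArg norm hdiff
    rw [norm_smul, norm_smul, hunit, hul1, mul_one, mul_one, Real.norm_eq_abs, Real.norm_eq_abs,
      abs_of_pos hbpos] at hnorm
    rcases abs_choice (τ' (n - 1) - τ (n - 1)) with h1 | h1
    · -- the same direction
      rw [h1] at hnorm
      rw [← hnorm] at hdiff
      have h2 : u 0 = u (n - 1) := smul_right_injective E hbne hdiff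
      have h3 := inc hc (L.out n le_rfl) (by
        have := L.refl (n - 1) (by omega)
        rw [hn'] at this
        exact this)
      have h4 := L.out 0 (Nat.zero_le _)
      rw [L.ret, ← h2] at h3
      linarith
    · rw [h1] at hnorm
      have h5 : τ' (n - 1) - τ (n - 1) = -b := by linarith
      rw [h5, neg_smul, ← smul_neg] at hdiff
      have h2 : u 0 = -u (n - 1) := smul_right_injective E hbne hdiff
      have h3 := L.nonret
      rw [h2, add_neg_cancel, norm_zero] at h3
      linarith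
  rw [hb0, zero_smul, add_zero] at hp0
  have h1 := L'.zero 0 (Nat.zero_le _)
  rw [hp0, hh, L.zero 0 (Nat.zero_le _), zero_add] at h1
  have h2 : 0 < g (p 0) := lt_of_lt_of_le hc L.gpos
  exact (mul_eq_zero.mp h1).resolve_right h2.ne'

theorem prove_disj : S_DISJ := by
  intro E _ _ _ h h' g ρ dh dh' dg g0 gc hh e w y n c M M' a a' p u p' u' τ τ' hn hc hew L L'
  rcases le_total a a' with haa | haa
  · exact main_le dh dh' dg g0 gc hh e w y n c M M' a a' p u p' u' τ τ' hn hc hew L L' haa
  · have h1 : ∀ x, h x = h' x + (-ρ) * g x := fun x => by rw [hh x]; ring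
    have h2 := main_le dh' dh dg g0 gc h1 e w y n c M' M a' a p' u' p u τ' τ hn hc hew L' L haa
    linarith

end Pool.Agent.Y502.IV
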